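import Pool.Agent.Q60.DG.GlueMain

/-!
# Moments of order less than `g` do not determine discrete Gaussians with a fixed parameter

Let `B` be the Gram matrix of the lattice `L = ℤ^g ∪ (ℤ^g + (1/2, …, 1/2))` and give `y ∈ L` the weight
`exp (π i ∑ y_j - π ∑ y_j²)`. On the coset of `(1/2, …, 1/2)` the weight is a product of `g` functions
`exp (π i y_j - π y_j²)` of `y_j ∈ ℤ + 1/2`, which are odd. A monomial of degree less than `g` misses one of
the variables, so its sum over this coset vanishes. Changing the sign of the weight on this coset
therefore does not change the moments of order less than `g`.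
-/

set_option autoImplicit false

namespace Pool.Agent.Results.MP_405529_ag.LowMomentsFail

open Pool.Agent.Q60.DG Complex

/-- For every `g ≥ 1` there is a parameter `B` in dimension `g` and there are two different discrete
Gaussians with this parameter `B` which have the same moments of all orders less than `g`. For `g ≥ 4`
these include the moments up to order three. -/
theorem result (g : ℕ) (hg : 1 ≤ g) :
    ∃ (B : Matrix (Fin g) (Fin g) ℂ) (u u' : Fin g → ℂ), IsParam B ∧ theta u B ≠ 0 ∧ theta u' B ≠ 0 ∧
      (∀ α : Fin g → ℕ, ∑ i, α i < g → moment u B α = moment u' B α) ∧ gauss u B ≠ gauss u' B := by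
  obtain ⟨m, rfl⟩ : ∃ m, g = m + 1 := ⟨g - 1, by omega⟩
  obtain ⟨h1, h2, h3, h4, h5⟩ := main m
  exact ⟨BB m, uu m, uu' m, h1, h2, h3, fun α hα => h4 α (Nat.lt_succ_iff.1 hα), h5⟩

end Pool.Agent.Results.MP_405529_ag.LowMomentsFail
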